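import Pool.Agent.W2helper43.BD.Stm

/-!
Project BD, piece DEFC.
-/

set_option autoImplicit false

open Pool.Agent.W2helper43.BD

namespace Pool.Agent.W2helper13.BD

variable {Λ V G Γ : Type} [CommRing Λ] [Group V] [Group G] [Group Γ]

/-- The `G`-component of an element of the inertia group is unique. -/
theorem uniq (D : Dat Λ V G Γ) {v v' : V} {g g' : G}
    (h : D.iV v * D.iG g = D.iV v' * D.iG g') : g = g' := by
  have h1 : D.iV (v'⁻¹ * v) = D.iG (g' * g⁻¹) := by
    rw [map_mul, map_inv, map_mul, map_inv]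
    rw [eq_mul_inv_iff_mul_eq, mul_assoc, h]
    group
  have h2 := D.disj _ _ h1
  rw [mul_inv_eq_one] at h2
  exact h2.symm

/-- The projection of the inertia group to `G`. -/
noncomputable def proj (D : Dat Λ V G Γ) : D.I →* G where
  toFun γ := (D.mem_I.1 γ.2).choose_spec.choose
  map_one' := by
    have h := (D.mem_I.1 (1 : D.I).2).choose_spec.choose_spec
    exact (uniq D (v := 1) (g := 1) (by rw [← h]; simp)).symm
  map_mul' := by
    intro x y
    have hx := (D.mem_I.1 x.2).choose_spec.choose_spec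
    have hy := (D.mem_I.1 y.2).choose_spec.choose_spec
    have hxy := (D.mem_I.1 (x * y).2).choose_spec.choose_spec
    obtain ⟨w, hw⟩ := D.normal (D.iG (D.mem_I.1 x.2).choose_spec.choose) (D.mem_I.1 y.2).choose
    refine uniq D (v := (D.mem_I.1 (x * y).2).choose) (v' := (D.mem_I.1 x.2).choose * w) ?_
    rw [← hxy, Subgroup.coe_mul, map_mul, map_mul, hw]
    conv_lhs => rw [hx, hy]
    group

theorem proj_spec (D : Dat Λ V G Γ) (γ : D.I) : ∃ v, (γ : Γ) = D.iV v * D.iG (proj D γ) :=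
  ⟨_, (D.mem_I.1 γ.2).choose_spec.choose_spec⟩

theorem p_defc : P_DEFC := by
  intro hcoef ℓ hℓ Λ V G Γ _ _ _ _ _ _ _ _ _ D b Q hQ hQI γ₁ hγ hne
  classical
  have : Fact ℓ.Prime := ⟨hℓ⟩
  obtain ⟨hc1, hc2⟩ := hcoef D b
  -- `γ₁` lies in the inertia group
  have hI : γ₁ ∈ D.I := by
    by_contra hcon
    rw [hc2 γ₁ hcon, map_zero] at hne
    exact hne rfl
  obtain ⟨v, hv⟩ := proj_spec D ⟨γ₁, hI⟩
  set g := proj D ⟨γ₁, hI⟩ with hg
  -- the coefficient of `b` at `g`
  obtain ⟨w, hw⟩ := D.normal (D.iG g)⁻¹ v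
  have hb : IsLocalRing.residue Λ (b.coeff g) ≠ 0 := by
    intro h0
    apply hne
    have h1 : γ₁ = D.iG g * D.iV w := by
      rw [hw]
      have : γ₁ = D.iV v * D.iG g := hv
      rw [this]
      group
    rw [h1, hc1, map_mul, h0, zero_mul]
  -- `ℓ` does not divide the order of `V`
  have hV : ¬ ℓ ∣ Nat.card V := by
    intro hdvd
    have h1 := congrArg (IsLocalRing.residue Λ) D.hc
    rw [map_mul, map_natCast, map_one, (CharP.cast_eq_zero_iff _ ℓ _).2 hdvd, mul_zero] at h1
    exact zero_ne_one h1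
  -- injectivity on `Q`
  let P : Subgroup D.I := Q.subgroupOf D.I
  have hinj : Function.Injective ((proj D).comp P.subtype) := by
    rw [injective_iff_map_eq_one]
    rintro ⟨⟨q, hqI⟩, hqP⟩ h1
    have hq : q ∈ Q := hqP
    obtain ⟨u, hu⟩ := proj_spec D ⟨q, hqI⟩
    have h2 : proj D ⟨q, hqI⟩ = 1 := h1
    rw [h2, map_one, mul_one] at hu
    have hu' : q = D.iV u := hu
    obtain ⟨k, hk⟩ := hQ ⟨q, hq⟩
    have hk' : q ^ ℓ ^ k = 1 := by
      have := congrArg Subtype.val hk
      simpa using this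
    have h3 : u ^ ℓ ^ k = 1 := by
      apply D.injV
      rw [map_pow, ← hu', hk', map_one]
    have h4 : orderOf u ∣ ℓ ^ k := orderOf_dvd_of_pow_eq_one h3
    have h5 : orderOf u ∣ Nat.card V := orderOf_dvd_natCard u
    have h6 : Nat.Coprime (ℓ ^ k) (Nat.card V) :=
      Nat.Coprime.pow_left k ((Nat.Prime.coprime_iff_not_dvd hℓ).2 hV)
    have h7 : orderOf u = 1 := Nat.eq_one_of_dvd_coprimes h6 h4 h5
    have h8 : u = 1 := orderOf_eq_one_iff.1 h7
    have h9 : q = 1 := by rw [hu', h8, map_one]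
    subst h9
    rfl
  have hPQ : Nat.card P = Nat.card Q :=
    Nat.card_congr (Subgroup.subgroupOfEquivOfLe hQI).toEquiv
  have hPp : IsPGroup ℓ P := hQ.of_equiv (Subgroup.subgroupOfEquivOfLe hQI).symm
  refine ⟨P.map (proj D), hPp.map _, ?_, ?_⟩
  · rw [← hPQ]
    have h1 : P.map (proj D) = ((proj D).comp P.subtype).range := by
      rw [MonoidHom.range_comp, Subgroup.range_subtype]
    rw [h1]
    exact (Nat.card_congr (MonoidHom.ofInjective hinj).toEquiv).symm
  · intro h0
    apply hb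
    have hmem : g ∈ Subgroup.centralizer ((P.map (proj D) : Subgroup G) : Set G) := by
      rw [Subgroup.mem_centralizer_iff]
      rintro _ ⟨⟨q, hqI⟩, hqP, rfl⟩
      have hq : q ∈ Q := hqP
      rw [hg, ← map_mul, ← map_mul]
      congr 1
      exact Subtype.ext (hγ q hq)
    have h1 : (br (P.map (proj D)) b).coeff g = IsLocalRing.residue Λ (b.coeff g) := by
      unfold br cut red
      simp only
      rw [Finsupp.filter_apply_pos _ _ hmem, Finsupp.mapRange_apply]
    rw [← h1, h0]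
    rfl

end Pool.Agent.W2helper13.BD
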